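import Mathlib
import Pool.Agent.Lib.MP_3c1a79_gt.Transport

/-!
For every compact Lie group `G` the unitary group `U(H)` and the group `GL(H)`,
`H = L²(G) ⊗ ℓ²`, with the norm topology and the conjugation action, are equivariantly
contractible.
-/

namespace Pool.Agent.Results.MP_3c1a79_gt.EquivariantKuiper

open MeasureTheory Pool.Agent.Lib.MP_3c1a79_gt
open scoped ContDiff

/-- Positive answer to Q1. Let `G` be a compact (Hausdorff, smooth) Lie group, modelled on a finite
dimensional real vector space `E`, with normalised Haar measure `μ`. Let `H` be the Hilbert space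
`L²(G) ⊗ ℓ²(ℕ)`: the Hilbert sum of the images of countably many isometries
`J n : L²(G) → H`, `J n f = f ⊗ e_n`. Let `π g = λ_g ⊗ 1`, i.e. `π g` is the unitary operator on
`H` with `π g (J n f) = J n f'`, where `f' = λ_g f` is the element of `L²(G)` with
`f' (x) = f (g⁻¹ x)`. Then the unitary group `U(H)` and the group `GL(H)` of invertible operators
(with their norm topologies) are equivariantly contractible for the conjugation actions
`T ↦ π_g T π_g* = π_g T π_g⁻¹`. -/
theorem result {E : Type*} [NormedAddCommGroup E] [NormedSpace ℝ E] [FiniteDimensional ℝ E]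
    {M : Type*} [TopologicalSpace M] (I : ModelWithCorners ℝ E M)
    (G : Type*) [TopologicalSpace G] [ChartedSpace M G] [Group G] [LieGroup I ∞ G]
    [CompactSpace G] [T2Space G] [MeasurableSpace G] [BorelSpace G]
    (μ : Measure G) [μ.IsHaarMeasure] [IsProbabilityMeasure μ]
    (H : Type*) [NormedAddCommGroup H] [InnerProductSpace ℂ H] [CompleteSpace H]
    (J : ℕ → Lp ℂ 2 μ →ₗᵢ[ℂ] H) (hJ : IsHilbertSum ℂ (fun _ : ℕ => Lp ℂ 2 μ) J)
    (π : G → unitary (H →L[ℂ] H))
    (hπ : ∀ (g : G) (n : ℕ) (f f' : Lp ℂ 2 μ), (∀ᵐ x ∂μ, f' x = f (g⁻¹ * x)) →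
      (π g : H →L[ℂ] H) (J n f) = J n f') :
    EquivariantlyContractible
      (fun (g : G) (y : unitary (H →L[ℂ] H)) => π g * y * star (π g)) ∧
    EquivariantlyContractible
      (fun (g : G) (T : (H →L[ℂ] H)ˣ) => Unitary.toUnits (π g) * T * (Unitary.toUnits (π g))⁻¹) := by
  have := topologicalGroup_of_lieGroup I ∞ (G := G)
  have := I.secondCountableTopology
  have := ChartedSpace.secondCountable_of_sigmaCompact M G
  exact ⟨model_U J hJ π hπ, model_GL J hJ π hπ⟩

end Pool.Agent.Results.MP_3c1a79_gt.EquivariantKuiper
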